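import Pool.Agent.N874.PP.Gal
import Pool.Agent.TH115.GD.Des

/-!
# Project PP (helper874), part PP-GF: consequences of `SelZero` (helper721)

Points over a separably closed field are divisible by two; if the 2-Selmer group is zero then the
points over `K` are divisible by two and the 2-primary part of the Tate-Shafarevich group is zero.
-/

set_option autoImplicit false
set_option linter.all false

open Polynomial IsDedekindDomain WeierstrassCurve WeierstrassCurve.Affine
open Pool.Agent.TH115.GD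
open scoped Classical

namespace Pool.Agent.N721.PP

open Pool.Agent.N874.PP

section halving

variable {F : Type*} [Field F]

/-- the curve `y ^ 2 = x ^ 3 + A x + B` -/
structure IsS (W : Affine F) (A B : F) : Prop where
  a1 : W.a₁ = 0
  a2 : W.a₂ = 0
  a3 : W.a₃ = 0
  a4 : W.a₄ = A
  a6 : W.a₆ = B

variable {W : Affine F} {A B : F}

theorem IsS.negY (h : IsS W A B) (x y : F) : W.negY x y = -y := by
  simp [WeierstrassCurve.Affine.negY, h.a1, h.a3]

theorem halve (h : IsS W A B) (h2 : (2 : F) ≠ 0) {t₁ t₂ t₃ : F} (n12 : t₁ ≠ t₂) (n13 : t₁ ≠ t₃)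
    (n23 : t₂ ≠ t₃) (hs : t₁ + t₂ + t₃ = 0) (hA : A = t₁ * t₂ + t₁ * t₃ + t₂ * t₃)
    (hB : B = -(t₁ * t₂ * t₃)) {X Y : F} (hQ : W.Nonsingular X Y) {u v w : F}
    (hu : u ^ 2 = X - t₁) (hv : v ^ 2 = X - t₂) (hw : w ^ 2 = X - t₃) :
    ∃ P : W.Point, P + P = Point.some X Y hQ := by
  have heq : Y ^ 2 = (X - t₁) * (X - t₂) * (X - t₃) := by
    have h1 := (W.nonsingular_iff X Y).1 hQ
    have h2 := (W.equation_iff X Y).1 h1.1
    rw [h.a1, h.a2, h.a3, h.a4, h.a6, hA, hB] at h2
    linear_combination h2 + X ^ 2 * hs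
  wlog hY : Y = u * v * w generalizing w with H
  · apply H (w := -w) (by rw [neg_sq, hw])
    have h1 : Y ^ 2 = (u * v * w) ^ 2 := by
      rw [heq, mul_pow, mul_pow, hu, hv, hw]
    rcases sq_eq_sq_iff_eq_or_eq_neg.1 h1 with h2 | h2
    · exact absurd h2 hY
    · rw [h2]; ring
  have huv : u + v ≠ 0 := by
    intro h0
    have : u ^ 2 = v ^ 2 := by rw [show u = -v by linear_combination h0]; ring
    rw [hu, hv] at this
    exact n12 (by linear_combination -this)
  have huw : u + w ≠ 0 := by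
    intro h0
    have : u ^ 2 = w ^ 2 := by rw [show u = -w by linear_combination h0]; ring
    rw [hu, hw] at this
    exact n13 (by linear_combination -this)
  have hvw : v + w ≠ 0 := by
    intro h0
    have : v ^ 2 = w ^ 2 := by rw [show v = -w by linear_combination h0]; ring
    rw [hv, hw] at this
    exact n23 (by linear_combination -this)
  have hne : (u + v) * (u + w) * (v + w) ≠ 0 := mul_ne_zero (mul_ne_zero huv huw) hvw
  have e1 : t₁ = X - u ^ 2 := by rw [hu]; ring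
  have e2 : t₂ = X - v ^ 2 := by rw [hv]; ring
  have e3 : t₃ = X - w ^ 2 := by rw [hw]; ring
  have h3X : 3 * X = u ^ 2 + v ^ 2 + w ^ 2 := by
    rw [e1, e2, e3] at hs
    linear_combination hs
  have hP : W.Nonsingular (X + u * v + u * w + v * w) ((u + v) * (u + w) * (v + w)) := by
    rw [W.nonsingular_iff, W.equation_iff, h.a1, h.a2, h.a3, h.a4, h.a6, hA, hB]
    refine ⟨?_, Or.inr ?_⟩
    · have f1 : X + u * v + u * w + v * w - t₁ = (u + v) * (u + w) := by rw [e1]; ring
      have f2 : X + u * v + u * w + v * w - t₂ = (v + u) * (v + w) := by rw [e2]; ring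
      have f3 : X + u * v + u * w + v * w - t₃ = (w + u) * (w + v) := by rw [e3]; ring
      have f4 : (X + u * v + u * w + v * w - t₁) * (X + u * v + u * w + v * w - t₂) *
          (X + u * v + u * w + v * w - t₃) = ((u + v) * (u + w) * (v + w)) ^ 2 := by
        rw [f1, f2, f3]; ring
      linear_combination -f4 - (X + u * v + u * w + v * w) ^ 2 * hs
    · intro h0
      have h4 : (2 : F) * ((u + v) * (u + w) * (v + w)) = 0 := by linear_combination h0
      exact hne ((mul_eq_zero.1 h4).resolve_left h2)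
  have hneg : (u + v) * (u + w) * (v + w) ≠
      W.negY (X + u * v + u * w + v * w) ((u + v) * (u + w) * (v + w)) := by
    rw [h.negY]
    intro h0
    have h4 : (2 : F) * ((u + v) * (u + w) * (v + w)) = 0 := by linear_combination h0
    exact hne ((mul_eq_zero.1 h4).resolve_left h2)
  refine ⟨Point.some _ _ hP, ?_⟩
  rw [Point.add_self_of_Y_ne hneg]
  have hsl : W.slope (X + u * v + u * w + v * w) (X + u * v + u * w + v * w)
      ((u + v) * (u + w) * (v + w)) ((u + v) * (u + w) * (v + w)) = u + v + w := by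
    rw [slope_of_Y_ne rfl hneg, h.negY, h.a1, h.a2, h.a4]
    rw [div_eq_iff (by
      intro h0
      have h4 : (2 : F) * ((u + v) * (u + w) * (v + w)) = 0 := by linear_combination h0
      exact hne ((mul_eq_zero.1 h4).resolve_left h2))]
    rw [hA, e1, e2, e3]
    linear_combination (2 * X + 2 * (u * v + u * w + v * w)) * h3X
  have hX : W.addX (X + u * v + u * w + v * w) (X + u * v + u * w + v * w) (u + v + w) = X := by
    rw [addX, h.a1, h.a2]
    linear_combination -h3X
  have hY' : W.addY (X + u * v + u * w + v * w) (X + u * v + u * w + v * w)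
      ((u + v) * (u + w) * (v + w)) (u + v + w) = Y := by
    rw [addY, negAddY, hX, h.negY, hY]
    ring
  simp only [hsl, hX, hY']

theorem roots_exist [IsSepClosed F] (hd : 4 * A ^ 3 + 27 * B ^ 2 ≠ 0) :
    ∃ t₁ t₂ t₃ : F, t₁ ≠ t₂ ∧ t₁ ≠ t₃ ∧ t₂ ≠ t₃ ∧ t₁ + t₂ + t₃ = 0 ∧
      A = t₁ * t₂ + t₁ * t₃ + t₂ * t₃ ∧ B = -(t₁ * t₂ * t₃) := by
  set p : F[X] := X ^ 3 + C A * X + C B with hp
  have hdeg : p.natDegree = 3 := by rw [hp]; compute_degree!
  have hmon : p.Monic := by rw [hp]; monicity!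
  have hder : derivative p = 3 * X ^ 2 + C A := by
    rw [hp]
    simp only [derivative_add, derivative_X_pow, derivative_mul, derivative_C, derivative_X,
      zero_mul, zero_add, mul_one, add_zero]
    norm_num
    rfl
  have hsep : p.Separable := by
    refine ⟨C (4 * A ^ 3 + 27 * B ^ 2)⁻¹ * -(18 * C A * X - 27 * C B),
      C (4 * A ^ 3 + 27 * B ^ 2)⁻¹ * (6 * C A * X ^ 2 - 9 * C B * X + 4 * C A ^ 2), ?_⟩
    rw [hder]
    have e : C (4 * A ^ 3 + 27 * B ^ 2)⁻¹ * -(18 * C A * X - 27 * C B) * p +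
        C (4 * A ^ 3 + 27 * B ^ 2)⁻¹ * (6 * C A * X ^ 2 - 9 * C B * X + 4 * C A ^ 2) *
          (3 * X ^ 2 + C A) =
        C ((4 * A ^ 3 + 27 * B ^ 2)⁻¹ * (4 * A ^ 3 + 27 * B ^ 2)) := by
      rw [hp, C_mul]
      simp only [C_add, C_mul, C_pow]
      have h4 : (C 4 : F[X]) = 4 := rfl
      have h27 : (C 27 : F[X]) = 27 := rfl
      rw [h4, h27]
      ring
    rw [e, inv_mul_cancel₀ hd, C_1]
  have hspl : p.Splits := IsSepClosed.splits_of_separable p hsep
  have hcard : p.roots.card = 3 := by rw [← hspl.natDegree_eq_card_roots, hdeg]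
  obtain ⟨t₁, t₂, t₃, hr⟩ := Multiset.card_eq_three.1 hcard
  have hnd := nodup_roots hsep
  rw [hr] at hnd
  have hprod := hspl.eq_prod_roots_of_monic hmon
  rw [hr] at hprod
  simp only [Multiset.insert_eq_cons, Multiset.map_cons, Multiset.map_singleton, Multiset.prod_cons,
    Multiset.prod_singleton] at hprod
  simp only [Multiset.insert_eq_cons, Multiset.nodup_cons, Multiset.mem_cons,
    Multiset.mem_singleton, not_or, Multiset.nodup_singleton, and_true] at hnd
  have hexp : (X - C t₁) * ((X - C t₂) * (X - C t₃)) = X ^ 3 + C (-(t₁ + t₂ + t₃)) * X ^ 2 +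
      C (t₁ * t₂ + t₁ * t₃ + t₂ * t₃) * X + C (-(t₁ * t₂ * t₃)) := by
    simp only [C_neg, C_add, C_mul]
    ring
  rw [hexp] at hprod
  have c2 := congrArg (fun q => q.coeff 2) hprod
  have c1 := congrArg (fun q => q.coeff 1) hprod
  have c0 := congrArg (fun q => q.coeff 0) hprod
  simp only [hp, coeff_add, coeff_C_mul, coeff_X_pow, coeff_X, coeff_C] at c2 c1 c0
  norm_num at c2 c1 c0
  refine ⟨t₁, t₂, t₃, hnd.1.1, hnd.1.2, hnd.2, ?_, ?_, ?_⟩
  · linear_combination c2
  · linear_combination c1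
  · linear_combination c0

theorem halve_sep [IsSepClosed F] (h : IsS W A B) (h2 : (2 : F) ≠ 0)
    (hd : 4 * A ^ 3 + 27 * B ^ 2 ≠ 0) (Q : W.Point) : ∃ P : W.Point, P + P = Q := by
  rcases Q with _ | ⟨x, y, hxy⟩
  · exact ⟨0, by rw [add_zero, Point.zero_def]⟩
  · obtain ⟨t₁, t₂, t₃, n12, n13, n23, hs, hA, hB⟩ := roots_exist hd
    haveI : NeZero ((2 : ℕ) : F) := ⟨by exact_mod_cast h2⟩
    obtain ⟨u, hu⟩ := IsSepClosed.exists_pow_nat_eq (x - t₁) 2
    obtain ⟨v, hv⟩ := IsSepClosed.exists_pow_nat_eq (x - t₂) 2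
    obtain ⟨w, hw⟩ := IsSepClosed.exists_pow_nat_eq (x - t₃) 2
    exact halve h h2 n12 n13 n23 hs hA hB hxy hu hv hw

end halving

section descent

variable {k K : Type} [Field k] [Field K] [Algebra k[X] K] [IsFractionRing k[X] K]

theorem ltSmul {F Ω L Ω' : Type} [Field F] [Field Ω] [Field L] [Field Ω'] [Algebra K F]
    [Algebra F Ω] [Algebra K Ω] [IsScalarTower K F Ω] [Algebra K L] [Algebra L Ω'] [Algebra K Ω']
    [Algebra F Ω'] [IsScalarTower K L Ω'] [IsScalarTower K F Ω'] {W : WeierstrassCurve K}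
    {f : (Ω ≃ₐ[F] Ω) → Pt W Ω} (h : LocTriv W L Ω' f) (n : ℕ) :
    LocTriv W L Ω' (fun σ => n • f σ) := by
  obtain ⟨ι, P, hP⟩ := h
  refine ⟨ι, n • P, fun τ σ hτ => ?_⟩
  rw [map_nsmul, hP τ σ hτ, map_nsmul, smul_sub]

theorem cobLoc (W : WeierstrassCurve K) (v : HeightOneSpectrum k[X]) (R : Pt W (Sep K)) :
    LocTriv W (Comp k[X] K v) (Sep (Comp k[X] K v))
      (fun σ : Sep K ≃ₐ[K] Sep K => act W (rs K σ) R - R) := by
  haveI : Algebra.IsSeparable K (Sep K) := IsSepClosure.separable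
  let ι : Sep K →ₐ[K] Sep (Comp k[X] K v) := IsSepClosed.lift
  refine ⟨ι, act W (ι.restrictScalars K) R, fun τ σ hτ => ?_⟩
  have h5 : (ι.restrictScalars K).comp (rs K σ) = (rs K τ).comp (ι.restrictScalars K) :=
    AlgHom.ext fun x => (hτ x).symm
  rw [map_sub, act_act, act_act, h5]

theorem ltSub' {k' K F : Type} [Field k'] [Field K] [Field F] [Algebra K F] [Algebra k'[X] F]
    [IsFractionRing k'[X] F] {W : WeierstrassCurve K} {f : (Sep F ≃ₐ[F] Sep F) → Pt W (Sep F)}
    (h : LocallyTrivial k' W f) (S : Pt W (Sep F)) :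
    LocallyTrivial k' W (fun σ => f σ - (act W (rs K σ) S - S)) :=
  ⟨fun v => (h.1 v).sub _ S, LocTriv.sub _ h.2 S⟩

theorem ltSmul' {k' K F : Type} [Field k'] [Field K] [Field F] [Algebra K F] [Algebra k'[X] F]
    [IsFractionRing k'[X] F] {W : WeierstrassCurve K} {f : (Sep F ≃ₐ[F] Sep F) → Pt W (Sep F)}
    (h : LocallyTrivial k' W f) (n : ℕ) : LocallyTrivial k' W (fun σ => n • f σ) :=
  ⟨fun v => ltSmul (h.1 v) n, ltSmul h.2 n⟩

theorem tr {L : Type} [Field L] (a a' : Algebra K L) (h : a' = a)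
    (i : @IsScalarTower K K (Sep L) Algebra.toSMul
      (@Algebra.toSMul K (Sep L) _ _ (@sepAlgebra L _ K _ a))
      (@Algebra.toSMul K (Sep L) _ _ (@sepAlgebra L _ K _ a')))
    (i' : @IsScalarTower K K (Sep L) Algebra.toSMul
      (@Algebra.toSMul K (Sep L) _ _ (@sepAlgebra L _ K _ a))
      (@Algebra.toSMul K (Sep L) _ _ (@sepAlgebra L _ K _ a)))
    {W : WeierstrassCurve K}
    {f : (Sep K ≃ₐ[K] Sep K) → Pt W (Sep K)}
    (H : @LocTriv K K (Sep K) _ _ _ _ _ _ _ W L (Sep L) _ _ a' (@sepAlgebra L _ L _ _)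
      (@sepAlgebra L _ K _ a') (@sepAlgebra L _ K _ a) (@sepTower L _ K _ a') i f) :
    @LocTriv K K (Sep K) _ _ _ _ _ _ _ W L (Sep L) _ _ a (@sepAlgebra L _ L _ _)
      (@sepAlgebra L _ K _ a) (@sepAlgebra L _ K _ a) (@sepTower L _ K _ a) i' f := by
  subst h
  exact H

theorem toSel {W : WeierstrassCurve K} {f : (Sep K ≃ₐ[K] Sep K) → Pt W (Sep K)}
    (h : LocallyTrivial k W f) (v : HeightOneSpectrum k[X]) :
    LocTriv W (Comp k[X] K v) (Sep (Comp k[X] K v)) f :=
  tr (L := Comp k[X] K v) (compAlgebra k[X] K v) (compAlgebra' k[X] K v K)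
    (Algebra.algebra_ext _ _ fun r => rfl) _ _ (h.1 v)

variable {A B : K}

theorem isS (A B : K) (Ω : Type) [Field Ω] [Algebra K Ω] :
    IsS ((sW A B).baseChange Ω).toAffine (algebraMap K Ω A) (algebraMap K Ω B) := by
  constructor <;> simp [sW, WeierstrassCurve.baseChange, WeierstrassCurve.map]

theorem half (h6 : (6 : K) ≠ 0) (hd : 4 * A ^ 3 + 27 * B ^ 2 ≠ 0) (Q : Pt (sW A B) (Sep K)) :
    ∃ P : Pt (sW A B) (Sep K), P + P = Q := by
  have h6' : (6 : Sep K) ≠ 0 := by
    have := (map_ne_zero (algebraMap K (Sep K))).2 h6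
    rwa [map_ofNat] at this
  have h2 : (2 : Sep K) ≠ 0 := by
    intro h
    apply h6'
    rw [show (6 : Sep K) = 2 * 3 by norm_num, h, zero_mul]
  refine halve_sep (isS A B (Sep K)) h2 ?_ Q
  have := (map_ne_zero (algebraMap K (Sep K))).2 hd
  rwa [map_add, map_mul, map_mul, map_pow, map_pow, map_ofNat, map_ofNat] at this

theorem gf_aux (h6 : (6 : K) ≠ 0) (hd : 4 * A ^ 3 + 27 * B ^ 2 ≠ 0)
    (hS : SelZero (k := k) (sW A B)) :
    (∀ P : Pt (sW A B) K, ∃ Q : Pt (sW A B) K, P = (2 : ℕ) • Q) ∧ ShaTwo k (sW A B) := by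
  haveI : Algebra.IsSeparable K (Sep K) := IsSepClosure.separable
  haveI : IsGalois K (Sep K) := inferInstance
  constructor
  · intro P
    obtain ⟨R, hR⟩ := half h6 hd (act (sW A B) (incl K K (Sep K)) P)
    have hfix : ∀ σ : Sep K ≃ₐ[K] Sep K, act (sW A B) (rs K σ) (R + R) = R + R := fun σ => by
      rw [hR]; exact rs_act_incl _ σ P
    obtain ⟨T, hT2, hT⟩ := hS (fun σ => act (sW A B) (rs K σ) R - R) (cob_isCoc _ R)
      (fun σ => by
        rw [two_nsmul, sub_add_sub_comm, ← map_add, hfix, sub_self])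
      (fun v => cobLoc _ v R)
    obtain ⟨Q, hQ⟩ := fixed_point (K := K) (F := K) (sW A B) (R - T) (fun σ => by
      have h1 := hT σ
      rw [map_sub]
      have h2 : act (sW A B) (rs K σ) R = R + (act (sW A B) (rs K σ) T - T) := by
        rw [← h1]; abel
      rw [h2]; abel)
    refine ⟨Q, act_inj (sW A B) (incl K K (Sep K)) ?_⟩
    rw [map_nsmul, hQ, smul_sub, hT2, sub_zero, two_nsmul, hR]
  · have key : ∀ g : (Sep K ≃ₐ[K] Sep K) → Pt (sW A B) (Sep K), IsCoc (sW A B) g →
        LocallyTrivial k (sW A B) g →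
        (∃ R : Pt (sW A B) (Sep K), ∀ σ, 2 • g σ = act (sW A B) (rs K σ) R - R) →
        ∃ R : Pt (sW A B) (Sep K), ∀ σ, g σ = act (sW A B) (rs K σ) R - R := by
      rintro g hg hl ⟨R, hR⟩
      obtain ⟨S, hS'⟩ := half h6 hd R
      obtain ⟨T, -, hT⟩ := hS (fun σ => g σ - (act (sW A B) (rs K σ) S - S))
        (hg.sub _ (cob_isCoc _ _))
        (fun σ => by
          rw [smul_sub, hR, two_nsmul, sub_add_sub_comm, ← map_add, hS', sub_self])
        (fun v => toSel (ltSub' hl S) v)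
      refine ⟨T + S, fun σ => ?_⟩
      have h1 := hT σ
      have h2 : g σ = (act (sW A B) (rs K σ) T - T) + (act (sW A B) (rs K σ) S - S) := by
        rw [← h1]; abel
      rw [h2, map_add]
      abel
    intro f hf hl ⟨n, hn⟩
    induction n with
    | zero =>
      obtain ⟨R, hR⟩ := hn
      exact ⟨R, fun σ => by rw [← hR, pow_zero, one_smul]⟩
    | succ n ih =>
      apply ih
      refine key (fun σ => 2 ^ n • f σ) ?_ ?_ ?_
      · refine ⟨hf.lc.comp (fun a => 2 ^ n • a), fun σ τ => ?_⟩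
        show 2 ^ n • f (σ * τ) = 2 ^ n • f σ + act (sW A B) (rs K σ) (2 ^ n • f τ)
        rw [hf.mul, map_nsmul, smul_add]
      · exact ltSmul' hl _
      · obtain ⟨R, hR⟩ := hn
        refine ⟨R, fun σ => ?_⟩
        rw [← hR, pow_succ', mul_smul]

end descent

/-- **PP-GF** -/
theorem gf : S_GF := by
  intro k K _ _ _ _ A B h6 hd hS
  refine gf_aux (k := k) ?_ hd hS
  have h : algebraMap k[X] K (C 6) ≠ 0 := by
    rw [Ne, IsFractionRing.to_map_eq_zero_iff, C_eq_zero]
    exact h6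
  have e : algebraMap k[X] K (C 6) = 6 := by
    have : (C 6 : k[X]) = 6 := rfl
    rw [this, map_ofNat]
  rwa [e] at h

end Pool.Agent.N721.PP
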